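import Pool.Agent.Y166.CS.Stm
import Pool.Agent.Y166.CS.Stm3

set_option autoImplicit false

/-!
# Project CS (helper166), part CURVE2 (helper182)
-/

namespace Pool.Agent.Y182.CS

open Polynomial
open Pool.Agent.Y166.CS

theorem squarefree_of_simple {f : ℂ[X]} (hf0 : f ≠ 0)
    (h : ∀ c : ℂ, f.eval c = 0 → f.derivative.eval c ≠ 0) : Squarefree f := by
  intro r hr
  by_contra hu
  obtain ⟨s, rfl⟩ := hr
  have hr0 : r ≠ 0 := by
    rintro rfl
    exact hf0 (by simp)
  have hdeg : r.degree ≠ 0 := by
    intro hd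
    exact hu (isUnit_iff_degree_eq_zero.2 hd)
  obtain ⟨c, hc⟩ := IsAlgClosed.exists_root r hdeg
  have hc' : r.eval c = 0 := hc
  refine h c ?_ ?_
  · rw [eval_mul, eval_mul, hc', zero_mul, zero_mul]
  · rw [derivative_mul, derivative_mul, eval_add, eval_mul, eval_add, eval_mul, eval_mul, eval_mul,
      eval_mul, hc']
    ring

theorem done (hC : S_CURVE) : S_CURVE2 := by
  intro f hBig k hk x y z hxyz hav
  obtain ⟨hf0, c, hc, hcc⟩ := hBig
  by_cases hmult : ∃ c, f.eval c = 0 ∧ f.derivative.eval c = 0
  · obtain ⟨c, hc, hdc⟩ := hmult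
    have hno : ∀ t, x.eval t ≠ c := by
      intro t ht
      have h1 : (f.comp x * z).eval t = (y ^ k).eval t := by rw [hxyz]
      rw [eval_mul, eval_comp, ht, hc, zero_mul, eval_pow] at h1
      have h2 : y.eval t = 0 := by
        have hk0 : k ≠ 0 := by omega
        exact (pow_eq_zero_iff hk0).1 h1.symm
      exact hav t ⟨by rw [ht]; exact hc, h2, by rw [ht, hdc, zero_mul]⟩
    have hdeg : (x - C c).degree = 0 := by
      by_contra hd
      obtain ⟨t, ht⟩ := IsAlgClosed.exists_root (x - C c) hd
      have ht' : (x - C c).eval t = 0 := ht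
      rw [eval_sub, eval_C] at ht'
      exact hno t (sub_eq_zero.1 ht')
    have h3 := eq_C_of_degree_eq_zero hdeg
    refine ⟨(x - C c).coeff 0 + c, ?_⟩
    rw [C_add, ← h3, sub_add_cancel]
  · have hs : ∀ c : ℂ, f.eval c = 0 → f.derivative.eval c ≠ 0 := by
      intro c h1 h2
      exact hmult ⟨c, h1, h2⟩
    have hsq := squarefree_of_simple hf0 hs
    have hdeg : 2 ≤ f.natDegree := by
      rcases hcc with h1 | ⟨c', hne, hc'⟩
      · exact absurd h1 (hs c hc)
      · have hsub : ({c, c'} : Finset ℂ) ⊆ f.roots.toFinset := by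
          intro w hw
          rw [Finset.mem_insert, Finset.mem_singleton] at hw
          rw [Multiset.mem_toFinset, mem_roots hf0]
          rcases hw with rfl | rfl
          · exact hc
          · exact hc'
        have h2 := Finset.card_le_card hsub
        rw [Finset.card_pair hne.symm] at h2
        exact h2.trans ((Multiset.toFinset_card_le _).trans (card_roots' f))
    refine hC f hsq hdeg k hk x y z hxyz ?_
    rintro t ⟨h1, h2, h3⟩
    exact hav t ⟨h1, h2, by rw [h3, mul_zero]⟩

end Pool.Agent.Y182.CS
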